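import Pool.Agent.N658.FF.Stm

/-! # Project FF (helper658), task Color (helper887): greedy colouring -/

open scoped Classical

namespace Pool.Agent.N887.FF

open Pool.Agent.N658.FF

/-- **A0.** -/
theorem color : StmColor := by
  intro T _ _ adj hsymm g hdeg
  have key : ∀ S : Finset T, ∃ col : T → Fin (g + 1), ∀ x ∈ S, ∀ y ∈ S, x ≠ y → adj x y →
      col x ≠ col y := by
    intro S
    induction S using Finset.induction_on with
    | empty => exact ⟨fun _ => 0, fun x hx => absurd hx (Finset.notMem_empty x)⟩
    | insert x S hx ih =>
      obtain ⟨col, hcol⟩ := ih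
      have h1 : ((Finset.univ.filter fun y => adj x y).image col).card <
          (Finset.univ : Finset (Fin (g + 1))).card := by
        rw [Finset.card_univ, Fintype.card_fin]
        exact Nat.lt_succ_of_le (Finset.card_image_le.trans (hdeg x))
      obtain ⟨c, -, hc⟩ := Finset.exists_mem_notMem_of_card_lt_card h1
      have hc' : ∀ y, adj x y → col y ≠ c := fun y hy h => hc (Finset.mem_image.2
        ⟨y, Finset.mem_filter.2 ⟨Finset.mem_univ y, hy⟩, h⟩)
      refine ⟨Function.update col x c, fun a ha b hb hab h => ?_⟩
      rcases Finset.mem_insert.1 ha with rfl | ha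
      · have hba : b ≠ a := Ne.symm hab
        rw [Function.update_self, Function.update_of_ne hba]
        exact (hc' b h).symm
      · have hax : a ≠ x := fun h0 => hx (h0 ▸ ha)
        rcases Finset.mem_insert.1 hb with rfl | hb
        · rw [Function.update_self, Function.update_of_ne hax]
          exact hc' a (hsymm _ _ h)
        · have hbx : b ≠ x := fun h0 => hx (h0 ▸ hb)
          rw [Function.update_of_ne hax, Function.update_of_ne hbx]
          exact hcol a ha b hb hab h
  obtain ⟨col, hcol⟩ := key Finset.univ
  exact ⟨col, fun x y => hcol x (Finset.mem_univ x) y (Finset.mem_univ y)⟩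

end Pool.Agent.N887.FF
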